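import Mathlib

open Set

namespace Pool.Agent.Results.MP_c457a4_an.Yes

universe u v

section
variable (𝕜 : Type) [RCLike 𝕜]

/-- `S` is a slice of the closed unit ball -/
def IsSlice {X : Type u} [NormedAddCommGroup X] [NormedSpace 𝕜 X] (S : Set X) : Prop :=
  ∃ (f : X →L[𝕜] 𝕜) (α : ℝ), ‖f‖ = 1 ∧ 0 < α ∧
    S = {z | ‖z‖ ≤ 1 ∧ 1 - α < RCLike.re (f z)}

/-- `C` is a convex combination of slices of the closed unit ball -/
def IsCCS {X : Type u} [NormedAddCommGroup X] [NormedSpace 𝕜 X] (C : Set X) : Prop :=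
  ∃ (n : ℕ) (l : Fin n → ℝ) (S : Fin n → Set X), (∀ i, 0 ≤ l i) ∧ ∑ i, l i = 1 ∧
    (∀ i, IsSlice 𝕜 (S i)) ∧
    C = {x | ∃ z : Fin n → X, (∀ i, z i ∈ S i) ∧ x = ∑ i, (l i : 𝕜) • z i}

/-- ccs Δ-points -/
def CCSDelta {X : Type u} [NormedAddCommGroup X] [NormedSpace 𝕜 X] (x : X) : Prop :=
  ‖x‖ = 1 ∧ ∀ C : Set X, IsCCS 𝕜 C → x ∈ C → IsLUB ((fun z => ‖x - z‖) '' C) 2

end

variable {𝕜 : Type} [RCLike 𝕜]

theorem slice_of {X : Type u} [NormedAddCommGroup X] [NormedSpace 𝕜 X] {x : X} (hx : ‖x‖ = 1)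
    (f : X →L[𝕜] 𝕜) (c : ℝ) {w : X} (hw : ‖w‖ ≤ 1) (hc : c < RCLike.re (f w)) :
    IsSlice 𝕜 {z : X | ‖z‖ ≤ 1 ∧ c < RCLike.re (f z)} := by
  by_cases hf : f = 0
  · obtain ⟨g, hg, -⟩ := exists_dual_vector 𝕜 x (by rw [hx]; exact one_ne_zero)
    refine ⟨g, 3, hg, by norm_num, ?_⟩
    ext z
    simp only [mem_ofPred_eq, and_congr_right_iff]
    intro hz
    have h1 : ‖g z‖ ≤ 1 := (g.le_opNorm z).trans (by rw [hg, one_mul]; exact hz)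
    have h2 := (abs_le.1 ((RCLike.abs_re_le_norm (g z)).trans h1)).1
    subst hf
    simp only [ContinuousLinearMap.zero_apply] at hc ⊢
    exact ⟨fun _ => by linarith, fun _ => hc⟩
  · have h0 : 0 < ‖f‖ := norm_pos_iff.2 hf
    have h1 : c < ‖f‖ := hc.trans_le ((RCLike.re_le_norm _).trans
      ((f.le_opNorm w).trans (mul_le_of_le_one_right h0.le hw)))
    refine ⟨((‖f‖⁻¹ : ℝ) : 𝕜) • f, 1 - c / ‖f‖, ?_, ?_, ?_⟩
    · rw [norm_smul, RCLike.norm_ofReal, abs_of_pos (inv_pos.2 h0), inv_mul_cancel₀ h0.ne']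
    · rw [sub_pos, div_lt_one h0]; exact h1
    · ext z
      simp only [mem_ofPred_eq, ContinuousLinearMap.smul_apply, smul_eq_mul,
        RCLike.re_ofReal_mul, sub_sub_cancel]
      rw [div_lt_iff₀ h0, mul_comm, mul_inv_cancel_left₀ h0.ne']

theorem norm_le_of_ccs {X : Type u} [NormedAddCommGroup X] [NormedSpace 𝕜 X] {C : Set X}
    (hC : IsCCS 𝕜 C) {z : X} (hz : z ∈ C) : ‖z‖ ≤ 1 := by
  obtain ⟨n, l, S, h0, h1, hS, rfl⟩ := hC
  obtain ⟨w, hw, rfl⟩ := hz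
  refine (norm_sum_le _ _).trans ?_
  rw [← h1]
  refine Finset.sum_le_sum fun i _ => ?_
  obtain ⟨f, α, -, -, e⟩ := hS i
  have := hw i
  rw [e] at this
  rw [norm_smul, RCLike.norm_ofReal, abs_of_nonneg (h0 i)]
  exact mul_le_of_le_one_right (h0 i) this.1

theorem key {X : Type u} {Z : Type v} [NormedAddCommGroup X] [NormedSpace 𝕜 X]
    [NormedAddCommGroup Z] [NormedSpace 𝕜 Z] (ι : X →L[𝕜] Z) (π : Z →L[𝕜] X)
    (h1 : ∀ x, π (ι x) = x) (h2 : ∀ z, ‖π z‖ ≤ ‖z‖)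
    (h3 : ∀ z x, ‖z‖ ≤ 1 → ‖x‖ ≤ 1 → ‖z - ι (π z) + ι x‖ ≤ 1)
    {p : Z} (hp : ‖p‖ = 1) (hx : CCSDelta 𝕜 (π p)) : CCSDelta 𝕜 p := by
  refine ⟨hp, fun C hC hpC => ⟨?_, fun b hb => ?_⟩⟩
  · rintro _ ⟨z, hz, rfl⟩
    exact (norm_sub_le _ _).trans (by linarith [norm_le_of_ccs hC hz])
  obtain ⟨n, l, S, h0, hl, hS, rfl⟩ := hC
  obtain ⟨w, hw, hpw⟩ := hpC
  choose f α hf hα e using hS
  have hw' : ∀ i, ‖w i‖ ≤ 1 ∧ 1 - α i < RCLike.re (f i (w i)) := fun i => by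
    have := hw i; rwa [e i] at this
  let S' : Fin n → Set X := fun i => {z : X | ‖z‖ ≤ 1 ∧
    1 - α i - RCLike.re (f i (w i - ι (π (w i)))) < RCLike.re (((f i).comp ι) z)}
  have hm : ∀ i, π (w i) ∈ S' i := fun i => ⟨(h2 _).trans (hw' i).1, by
    have := (hw' i).2
    simp only [map_sub, ContinuousLinearMap.comp_apply]
    linarith⟩
  refine (hx.2 _ ⟨n, l, S', h0, hl, fun i => slice_of hx.1 _ _ (hm i).1 (hm i).2, rfl⟩
    ⟨fun i => π (w i), hm, by rw [hpw]; simp⟩).2 ?_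
  rintro _ ⟨_, ⟨z, hz, rfl⟩, rfl⟩
  refine le_trans ?_ (hb ⟨_, ⟨fun i => w i - ι (π (w i)) + ι (z i), fun i => ?_, rfl⟩, rfl⟩)
  · refine le_trans (le_of_eq ?_) (h2 _)
    simp [h1]
  · rw [e i]
    refine ⟨h3 _ _ (hw' i).1 (hz i).1, ?_⟩
    have := (hz i).2
    simp only [map_add, ContinuousLinearMap.comp_apply] at this ⊢
    linarith

theorem result (𝕜 : Type) [RCLike 𝕜] (X : Type u) (Y : Type v) [NormedAddCommGroup X]
    [NormedSpace 𝕜 X] [CompleteSpace X] [NormedAddCommGroup Y] [NormedSpace 𝕜 Y]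
    [CompleteSpace Y] (x : X) (y : Y) (hx : CCSDelta 𝕜 x) (hy : CCSDelta 𝕜 y) (a b : ℝ)
    (ha : a ∈ Icc (0 : ℝ) 1) (hb : b ∈ Icc (0 : ℝ) 1) (hab : max a b = 1) :
    CCSDelta 𝕜 (((a : 𝕜) • x, (b : 𝕜) • y) : X × Y) := by
  have hn : ‖(((a : 𝕜) • x, (b : 𝕜) • y) : X × Y)‖ = 1 := by
    rw [Prod.norm_def, norm_smul, norm_smul, hx.1, hy.1, RCLike.norm_ofReal, RCLike.norm_ofReal,
      abs_of_nonneg ha.1, abs_of_nonneg hb.1, mul_one, mul_one, hab]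
  rcases max_choice a b with h | h
  · rw [hab] at h
    refine key (ContinuousLinearMap.inl 𝕜 X Y) (ContinuousLinearMap.fst 𝕜 X Y) (fun _ => rfl)
      (fun z => norm_fst_le z) (fun z w hz hw => ?_) hn (by simpa [← h] using hx)
    rw [Prod.norm_def]
    simpa using ⟨hw, (norm_snd_le z).trans hz⟩
  · rw [hab] at h
    refine key (ContinuousLinearMap.inr 𝕜 X Y) (ContinuousLinearMap.snd 𝕜 X Y) (fun _ => rfl)
      (fun z => norm_snd_le z) (fun z w hz hw => ?_) hn (by simpa [← h] using hy)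
    rw [Prod.norm_def]
    simpa using ⟨(norm_fst_le z).trans hz, hw⟩

end Pool.Agent.Results.MP_c457a4_an.Yes
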